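import Pool.Agent.Lib.MP_bdc5f5_nt.Final

namespace Pool.Agent.Results.MP_bdc5f5_nt.Super

/-- For every prime `p > 5`, with `N = 2^14 * 3^4 * 5`, the truncated sum
`S(p) = ∑_{k<p} (644k+41) (4k)!/(k!)^4 (-N)^(-k)` satisfies `S(p) - 41 p (-5/p) = p^3 c` for a
rational `c` whose denominator is prime to `p`. -/
theorem result (p : ℕ) [Fact p.Prime] (hp : 5 < p) :
    ∃ c : ℚ, Nat.Coprime c.den p ∧
      (∑ k ∈ Finset.range p, (644 * (k : ℚ) + 41) *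
          (((4 * k).factorial : ℚ) / (k.factorial : ℚ) ^ 4) *
          (-(2 ^ 14 * 3 ^ 4 * 5 : ℚ)) ^ (-(k : ℤ))) -
        41 * (p : ℚ) * (legendreSym p (-5) : ℚ) = (p : ℚ) ^ 3 * c :=
  Pool.Agent.Lib.MP_bdc5f5_nt.mainQ hp

end Pool.Agent.Results.MP_bdc5f5_nt.Super
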